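import Mathlib

open Set Filter Topology

namespace Q287.HC

/-- coefficient `1/(k! Γ(k+μ+1))` -/
noncomputable def co (μ : ℝ) (k : ℕ) : ℝ := 1 / ((k.factorial : ℝ) * Real.Gamma (k + μ + 1))

/-- `E_μ(x) = Σ x^k/(k! Γ(k+μ+1))` -/
noncomputable def E (μ x : ℝ) : ℝ := ∑' k : ℕ, co μ k * x ^ k

lemma gam_pos {μ : ℝ} (hμ : -1 < μ) (k : ℕ) : 0 < Real.Gamma (k + μ + 1) := by
  apply Real.Gamma_pos_of_pos
  have : (0 : ℝ) ≤ k := Nat.cast_nonneg k
  linarith

lemma co_pos {μ : ℝ} (hμ : -1 < μ) (k : ℕ) : 0 < co μ k := by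
  unfold co
  have := gam_pos hμ k
  have : (0 : ℝ) < k.factorial := by exact_mod_cast k.factorial_pos
  positivity

lemma gam_ge {μ : ℝ} (hμ : -1 < μ) (k : ℕ) :
    (μ + 1) ^ k * Real.Gamma (μ + 1) ≤ Real.Gamma (k + μ + 1) := by
  induction k with
  | zero => simp
  | succ k ih =>
    have h0 : (0 : ℝ) ≤ k := Nat.cast_nonneg k
    have h1 : ((k + 1 : ℕ) : ℝ) + μ + 1 = ((k : ℝ) + μ + 1) + 1 := by push_cast; ring
    have hne : (k : ℝ) + μ + 1 ≠ 0 := by
      have : 0 < (k : ℝ) + μ + 1 := by linarith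
      exact this.ne'
    rw [h1, Real.Gamma_add_one hne]
    have h2 : (μ + 1) ≤ (k : ℝ) + μ + 1 := by linarith
    have h3 := gam_pos hμ k
    calc (μ + 1) ^ (k + 1) * Real.Gamma (μ + 1) = (μ + 1) * ((μ + 1) ^ k * Real.Gamma (μ + 1)) := by ring
      _ ≤ (μ + 1) * Real.Gamma (k + μ + 1) := by
          apply mul_le_mul_of_nonneg_left ih; linarith
      _ ≤ ((k : ℝ) + μ + 1) * Real.Gamma (k + μ + 1) := by
          apply mul_le_mul_of_nonneg_right h2 h3.le

lemma co_le {μ : ℝ} (hμ : -1 < μ) (k : ℕ) :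
    co μ k ≤ (1 / Real.Gamma (μ + 1)) * ((1 / (μ + 1)) ^ k / k.factorial) := by
  unfold co
  have hg : 0 < Real.Gamma (μ + 1) := Real.Gamma_pos_of_pos (by linarith)
  have hm : 0 < μ + 1 := by linarith
  have hf : (0 : ℝ) < k.factorial := by exact_mod_cast k.factorial_pos
  have h1 := gam_ge hμ k
  have h2 : (1 / Real.Gamma (μ + 1)) * ((1 / (μ + 1)) ^ k / k.factorial)
      = 1 / ((k.factorial : ℝ) * ((μ + 1) ^ k * Real.Gamma (μ + 1))) := by
    rw [one_div_pow]; field_simp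
  rw [h2]
  apply one_div_le_one_div_of_le
  · positivity
  · exact mul_le_mul_of_nonneg_left h1 hf.le

lemma summ_abs {μ : ℝ} (hμ : -1 < μ) {r : ℝ} (hr : 0 ≤ r) : Summable (fun k : ℕ => co μ k * r ^ k) := by
  have hs : Summable (fun k : ℕ => (1 / Real.Gamma (μ + 1)) * ((r / (μ + 1)) ^ k / k.factorial)) :=
    (Real.summable_pow_div_factorial (r / (μ + 1))).mul_left _
  refine Summable.of_nonneg_of_le (fun k => mul_nonneg (co_pos hμ k).le (pow_nonneg hr k)) (fun k => ?_) hs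
  calc co μ k * r ^ k ≤ (1 / Real.Gamma (μ + 1)) * ((1 / (μ + 1)) ^ k / k.factorial) * r ^ k :=
        mul_le_mul_of_nonneg_right (co_le hμ k) (pow_nonneg hr k)
    _ = _ := by rw [div_pow, div_pow]; ring

lemma summ_norm {μ : ℝ} (hμ : -1 < μ) (x : ℝ) : Summable (fun k : ℕ => ‖co μ k * x ^ k‖) := by
  have := summ_abs hμ (abs_nonneg x)
  refine this.congr (fun k => ?_)
  rw [norm_mul, norm_pow, Real.norm_eq_abs, Real.norm_eq_abs, abs_of_pos (co_pos hμ k)]

lemma summ {μ : ℝ} (hμ : -1 < μ) (x : ℝ) : Summable (fun k : ℕ => co μ k * x ^ k) :=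
  (summ_norm hμ x).of_norm

lemma E_zero (μ : ℝ) : E μ 0 = 1 / Real.Gamma (μ + 1) := by
  unfold E
  rw [tsum_eq_single 0]
  · simp [co]
  · intro k hk
    simp [hk]

lemma E_pos {μ : ℝ} (hμ : -1 < μ) {x : ℝ} (hx : 0 ≤ x) : 0 < E μ x := by
  unfold E
  have h := (summ hμ x)
  refine h.tsum_pos (fun k => mul_nonneg (co_pos hμ k).le (pow_nonneg hx k)) 0 ?_
  simpa using co_pos hμ 0

lemma co_succ {μ : ℝ} (k : ℕ) : co μ (k + 1) * ((k + 1 : ℕ) : ℝ) = co (μ + 1) k := by
  unfold co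
  have hf : (0 : ℝ) < k.factorial := by exact_mod_cast k.factorial_pos
  have h1 : ((k + 1 : ℕ) : ℝ) + μ + 1 = (k : ℝ) + (μ + 1) + 1 := by push_cast; ring
  rw [h1, Nat.factorial_succ]
  have h2 : (((k + 1 : ℕ) : ℝ)) ≠ 0 := by positivity
  rw [Nat.cast_mul]
  rcases eq_or_ne (Real.Gamma ((k : ℝ) + (μ + 1) + 1)) 0 with h | h
  · simp [h]
  · field_simp

lemma E_hasDerivAt {μ : ℝ} (hμ : -1 < μ) (x : ℝ) : HasDerivAt (E μ) (E (μ + 1) x) x := by
  set R : ℝ := |x| + 1 with hR
  have hR0 : 0 < R := by positivity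
  have key : HasDerivAt (fun z => ∑' k : ℕ, co μ k * z ^ k) (∑' k : ℕ, co μ k * (k * x ^ (k - 1))) x := by
    refine hasDerivAt_tsum_of_isPreconnected (𝕜 := ℝ) (F := ℝ) (u := fun k : ℕ => co μ k * (k * R ^ (k - 1)))
      (g := fun k z => co μ k * z ^ k) (g' := fun k z => co μ k * (k * z ^ (k - 1)))
      (t := Metric.ball (0 : ℝ) R) (y₀ := 0) ?_ Metric.isOpen_ball
      (convex_ball (0 : ℝ) R).isPreconnected ?_ ?_ (by simpa using hR0) ?_ ?_
    · rw [← summable_nat_add_iff 1]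
      refine (summ_abs (μ := μ + 1) (by linarith) hR0.le).congr (fun k => ?_)
      rw [← co_succ, Nat.add_sub_cancel]; ring
    · intro n y _
      exact (hasDerivAt_pow n y).const_mul _
    · intro n y hy
      have hy' : |y| ≤ R := by
        have := Metric.mem_ball.mp hy
        rw [dist_zero_right, Real.norm_eq_abs] at this
        exact this.le
      rw [norm_mul, norm_mul, norm_pow, Real.norm_eq_abs, Real.norm_eq_abs, Real.norm_eq_abs,
        abs_of_pos (co_pos hμ n), Nat.abs_cast]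
      apply mul_le_mul_of_nonneg_left _ (co_pos hμ n).le
      apply mul_le_mul_of_nonneg_left _ (Nat.cast_nonneg n)
      exact pow_le_pow_left₀ (abs_nonneg y) hy' _
    · exact summ hμ 0
    · rw [Metric.mem_ball, dist_zero_right, Real.norm_eq_abs]; linarith
  have e : (∑' k : ℕ, co μ k * (k * x ^ (k - 1))) = E (μ + 1) x := by
    have hs : Summable (fun k : ℕ => co μ (k + 1) * (((k + 1 : ℕ) : ℝ) * x ^ (k + 1 - 1))) := by
      refine (summ (μ := μ + 1) (by linarith) x).congr (fun k => ?_)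
      rw [← co_succ, Nat.add_sub_cancel]; ring
    rw [Summable.tsum_eq_zero_add ((summable_nat_add_iff 1).mp hs)]
    simp only [Nat.cast_zero, zero_mul, mul_zero, zero_add]
    unfold E
    apply tsum_congr
    intro k
    rw [← co_succ, Nat.add_sub_cancel]; ring
  rw [← e]
  exact key

lemma E_rec {μ : ℝ} (hμ : -1 < μ) (x : ℝ) : x * E (μ + 2) x + (μ + 1) * E (μ + 1) x = E μ x := by
  have h0 := summ hμ x
  have h1 := summ (μ := μ + 1) (by linarith) x
  have h2 := summ (μ := μ + 2) (by linarith) x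
  unfold E
  rw [h0.tsum_eq_zero_add, h1.tsum_eq_zero_add, mul_add, ← tsum_mul_left, ← tsum_mul_left]
  have h1' := ((summable_nat_add_iff 1).mpr h1).mul_left (μ + 1)
  have h2' := h2.mul_left x
  have e0 : (μ + 1) * (co (μ + 1) 0 * x ^ 0) = co μ 0 * x ^ 0 := by
    have hp : (0 : ℝ) < μ + 1 := by linarith
    have hg : 0 < Real.Gamma (μ + 1) := Real.Gamma_pos_of_pos hp
    simp only [co, Nat.factorial_zero, Nat.cast_one, Nat.cast_zero, zero_add, pow_zero, mul_one, one_mul]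
    rw [Real.Gamma_add_one hp.ne']
    field_simp
  have e1 : (∑' k : ℕ, x * (co (μ + 2) k * x ^ k)) + (∑' k : ℕ, (μ + 1) * (co (μ + 1) (k + 1) * x ^ (k + 1)))
      = ∑' k : ℕ, co μ (k + 1) * x ^ (k + 1) := by
    rw [← Summable.tsum_add h2' h1']
    apply tsum_congr
    intro k
    have hk : (0 : ℝ) ≤ k := Nat.cast_nonneg k
    have hf : (0 : ℝ) < k.factorial := by exact_mod_cast k.factorial_pos
    have hg2 : 0 < Real.Gamma ((k : ℝ) + μ + 2) := Real.Gamma_pos_of_pos (by linarith)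
    have g1 : co (μ + 2) k = 1 / (k.factorial * (((k : ℝ) + μ + 2) * Real.Gamma ((k : ℝ) + μ + 2))) := by
      unfold co
      rw [← Real.Gamma_add_one (by have : 0 < (k : ℝ) + μ + 2 := by linarith
                                   exact this.ne')]
      congr 3; ring
    have g2 : co (μ + 1) (k + 1) = 1 / ((((k : ℝ) + 1) * k.factorial) *
        (((k : ℝ) + μ + 2) * Real.Gamma ((k : ℝ) + μ + 2))) := by
      unfold co
      rw [← Real.Gamma_add_one (by have : 0 < (k : ℝ) + μ + 2 := by linarith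
                                   exact this.ne'), Nat.factorial_succ]
      push_cast
      congr 3; ring
    have g3 : co μ (k + 1) = 1 / ((((k : ℝ) + 1) * k.factorial) * Real.Gamma ((k : ℝ) + μ + 2)) := by
      unfold co
      rw [Nat.factorial_succ]
      push_cast
      congr 3; ring
    rw [g1, g2, g3]
    have : 0 < (k : ℝ) + μ + 2 := by linarith
    field_simp
    ring
  rw [e0, ← e1]
  ring

end Q287.HC
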