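import Pool.Agent.Q287.HC.HC1

open Set Filter Topology

namespace Q287.HC

/-- `E_μ` has a negative real zero (i.e. `J_μ` has a positive zero), `μ > -1`. -/
lemma exists_zero {μ : ℝ} (hμ : -1 < μ) : ∃ t : ℝ, 0 < t ∧ E μ (-t) = 0 := by
  by_contra hcon
  push Not at hcon
  have hm : 0 < μ + 1 := by linarith
  -- derivative formulas
  have dF : ∀ t : ℝ, HasDerivAt (fun t => E μ (-t)) (-(E (μ + 1) (-t))) t := by
    intro t
    have := (E_hasDerivAt hμ (-t)).comp t (hasDerivAt_neg t)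
    simpa [Function.comp_def] using this
  have dG : ∀ t : ℝ, HasDerivAt (fun t => E (μ + 1) (-t)) (-(E (μ + 2) (-t))) t := by
    intro t
    have := (E_hasDerivAt (μ := μ + 1) (by linarith) (-t)).comp t (hasDerivAt_neg t)
    rw [show μ + 1 + 1 = μ + 2 by ring] at this
    simpa [Function.comp_def] using this
  have hFc : Continuous (fun t => E μ (-t)) := continuous_iff_continuousAt.mpr (fun t => (dF t).continuousAt)
  have hGc : Continuous (fun t => E (μ + 1) (-t)) := continuous_iff_continuousAt.mpr (fun t => (dG t).continuousAt)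
  -- positivity of F
  have hFpos : ∀ t, 0 ≤ t → 0 < E μ (-t) := by
    intro t ht
    by_contra hneg
    push Not at hneg
    have h0 : 0 < E μ (-0) := by rw [neg_zero]; exact E_pos hμ le_rfl
    have ht0 : 0 < t := by
      rcases ht.lt_or_eq with h | h
      · exact h
      · rw [← h] at hneg; linarith
    have hiv := intermediate_value_Icc' ht0.le (hFc.continuousOn (s := Icc 0 t))
    have hmem : (0 : ℝ) ∈ Icc (E μ (-t)) (E μ (-0)) := ⟨hneg, h0.le⟩
    obtain ⟨s, hs, hs0⟩ := hiv hmem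
    have hs0' : E μ (-s) = 0 := hs0
    have : 0 < s := by
      rcases hs.1.lt_or_eq with h | h
      · exact h
      · rw [← h] at hs0'; linarith
    exact hcon s this hs0'
  -- Q(t) = t^(μ+1) G(t)
  have dQ : ∀ t : ℝ, 0 < t → HasDerivAt (fun t => t ^ (μ + 1) * E (μ + 1) (-t)) (t ^ μ * E μ (-t)) t := by
    intro t ht
    have h1 := (Real.hasDerivAt_rpow_const (x := t) (p := μ + 1) (Or.inl ht.ne')).mul (dG t)
    refine HasDerivAt.congr_deriv h1 ?_
    rw [← E_rec hμ (-t), show μ + 1 - 1 = μ by ring, Real.rpow_add_one ht.ne']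
    ring
  have cQ : Continuous (fun t : ℝ => t ^ (μ + 1) * E (μ + 1) (-t)) :=
    (Real.continuous_rpow_const hm.le).mul hGc
  have Q0 : (0 : ℝ) ^ (μ + 1) * E (μ + 1) (-0) = 0 := by rw [Real.zero_rpow hm.ne', zero_mul]
  have monQ : StrictMonoOn (fun t : ℝ => t ^ (μ + 1) * E (μ + 1) (-t)) (Ici 0) := by
    apply strictMonoOn_of_deriv_pos (convex_Ici 0) cQ.continuousOn
    intro t ht
    rw [interior_Ici] at ht
    rw [(dQ t ht).deriv]
    exact mul_pos (Real.rpow_pos_of_pos ht _) (hFpos t (le_of_lt ht))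
  have hGpos : ∀ t, 0 < t → 0 < E (μ + 1) (-t) := by
    intro t ht
    have h1 := monQ (show (0 : ℝ) ∈ Ici (0 : ℝ) by simp) (show t ∈ Ici (0 : ℝ) from ht.le) ht
    simp only at h1
    rw [Q0] at h1
    exact (pos_iff_pos_of_mul_pos h1).mp (Real.rpow_pos_of_pos ht _)
  -- R monotone
  have hGF : ∀ t, 0 < t → E μ (-t) / (μ + 1) ≤ E (μ + 1) (-t) := by
    intro t ht
    have cR : Continuous (fun t : ℝ => t ^ (μ + 1) * E (μ + 1) (-t) - E μ (-t) * t ^ (μ + 1) / (μ + 1)) :=
      cQ.sub ((hFc.mul (Real.continuous_rpow_const hm.le)).div_const _)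
    have dR : ∀ t : ℝ, 0 < t → HasDerivAt
        (fun t : ℝ => t ^ (μ + 1) * E (μ + 1) (-t) - E μ (-t) * t ^ (μ + 1) / (μ + 1))
        (E (μ + 1) (-t) * t ^ (μ + 1) / (μ + 1)) t := by
      intro t ht
      have h2 := ((dF t).mul (Real.hasDerivAt_rpow_const (x := t) (p := μ + 1) (Or.inl ht.ne'))).div_const (μ + 1)
      have h3 := (dQ t ht).sub h2
      refine HasDerivAt.congr_deriv h3 ?_
      rw [show μ + 1 - 1 = μ by ring]
      field_simp
      ring
    have monR : MonotoneOn (fun t : ℝ => t ^ (μ + 1) * E (μ + 1) (-t) - E μ (-t) * t ^ (μ + 1) / (μ + 1)) (Ici 0) := by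
      apply monotoneOn_of_deriv_nonneg (convex_Ici 0) cR.continuousOn
      · intro s hs
        rw [interior_Ici] at hs
        exact (dR s hs).differentiableAt.differentiableWithinAt
      · intro s hs
        rw [interior_Ici] at hs
        rw [(dR s hs).deriv]
        have := hGpos s hs
        have := Real.rpow_pos_of_pos (show (0:ℝ) < s from hs) (μ + 1)
        positivity
    have h1 := monR (show (0 : ℝ) ∈ Ici (0 : ℝ) by simp) (show t ∈ Ici (0 : ℝ) from ht.le) ht.le
    simp only at h1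
    rw [Q0, Real.zero_rpow hm.ne'] at h1
    have hp := Real.rpow_pos_of_pos ht (μ + 1)
    have h4 : t ^ (μ + 1) * (E (μ + 1) (-t) - E μ (-t) / (μ + 1)) ≥ 0 := by
      have : t ^ (μ + 1) * (E (μ + 1) (-t) - E μ (-t) / (μ + 1)) =
        t ^ (μ + 1) * E (μ + 1) (-t) - E μ (-t) * t ^ (μ + 1) / (μ + 1) := by ring
      rw [this]; simpa using h1
    have h5 := nonneg_of_mul_nonneg_right h4 hp
    linarith
  -- exponential decay
  have hdecay : ∀ t, 0 ≤ t → Real.exp (t / (μ + 1)) * E μ (-t) ≤ E μ (-0) := by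
    intro t ht
    have dS : ∀ t : ℝ, HasDerivAt (fun t : ℝ => Real.exp (t / (μ + 1)) * E μ (-t))
        (Real.exp (t / (μ + 1)) * (E μ (-t) / (μ + 1) - E (μ + 1) (-t))) t := by
      intro t
      have h1 := ((hasDerivAt_id t).div_const (μ + 1)).exp.mul (dF t)
      refine HasDerivAt.congr_deriv h1 ?_
      simp only [id_eq]
      ring
    have anti : AntitoneOn (fun t : ℝ => Real.exp (t / (μ + 1)) * E μ (-t)) (Ici 0) := by
      apply antitoneOn_of_deriv_nonpos (convex_Ici 0)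
      · exact (continuous_iff_continuousAt.mpr (fun t => (dS t).continuousAt)).continuousOn
      · intro s hs
        exact (dS s).differentiableAt.differentiableWithinAt
      · intro s hs
        rw [interior_Ici] at hs
        rw [(dS s).deriv]
        have := hGF s hs
        have he := Real.exp_pos (s / (μ + 1))
        nlinarith
    have := anti (show (0 : ℝ) ∈ Ici (0 : ℝ) by simp) (show t ∈ Ici (0 : ℝ) from ht) ht
    simpa using this
  -- polynomial lower bound
  set c : ℝ := E (μ + 1) (-1) with hc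
  have hcpos : 0 < c := hGpos 1 one_pos
  have hG1 : ∀ t, 1 ≤ t → c * t ^ (-(μ + 1)) ≤ E (μ + 1) (-t) := by
    intro t ht
    have ht0 : 0 < t := by linarith
    have h1 := monQ.monotoneOn (show (1 : ℝ) ∈ Ici (0 : ℝ) from (zero_le_one : (0:ℝ) ≤ 1)) (show t ∈ Ici (0 : ℝ) from ht0.le) ht
    simp only [Real.one_rpow, one_mul] at h1
    rw [Real.rpow_neg ht0.le]
    have hp := Real.rpow_pos_of_pos ht0 (μ + 1)
    rw [← div_eq_mul_inv, div_le_iff₀ hp]
    rw [mul_comm (t ^ (μ + 1))] at h1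
    exact h1
  have hlow : ∀ t, 1 ≤ t → c * (2 : ℝ) ^ (-(μ + 1)) * t ^ (-μ) ≤ E μ (-t) := by
    intro t ht
    have ht0 : 0 < t := by linarith
    have hlt : t < 2 * t := by linarith
    obtain ⟨ξ, hξ, hξe⟩ := exists_hasDerivAt_eq_slope (fun t => E μ (-t)) (fun t => -(E (μ + 1) (-t))) hlt
      hFc.continuousOn (fun x _ => dF x)
    have hξ0 : 0 < ξ := by linarith [hξ.1]
    have h1 := hG1 ξ (by linarith [hξ.1])
    have h2 : (2 * t) ^ (-(μ + 1)) ≤ ξ ^ (-(μ + 1)) :=
      Real.rpow_le_rpow_of_nonpos hξ0 hξ.2.le (by linarith)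
    have h3 : 0 < E μ (-(2 * t)) := hFpos _ (by linarith)
    rw [eq_div_iff (by linarith)] at hξe
    have h4 : E μ (-t) = E μ (-(2 * t)) + E (μ + 1) (-ξ) * t := by
      have : (2 * t - t) = t := by ring
      rw [this] at hξe
      linarith
    have h5 : c * (2 : ℝ) ^ (-(μ + 1)) * t ^ (-μ) = c * (2 * t) ^ (-(μ + 1)) * t := by
      rw [Real.mul_rpow (by norm_num) ht0.le, show -μ = -(μ + 1) + 1 by ring, Real.rpow_add_one ht0.ne']
      ring
    rw [h4]
    have h6 : c * (2 * t) ^ (-(μ + 1)) * t ≤ E (μ + 1) (-ξ) * t := by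
      apply mul_le_mul_of_nonneg_right _ ht0.le
      exact (mul_le_mul_of_nonneg_left h2 hcpos.le).trans h1
    rw [h5]
    linarith
  -- contradiction
  have hlim := tendsto_rpow_mul_exp_neg_mul_atTop_nhds_zero μ (1 / (μ + 1)) (by positivity)
  set d : ℝ := c * (2 : ℝ) ^ (-(μ + 1)) with hd
  have hdpos : 0 < d := mul_pos hcpos (Real.rpow_pos_of_pos (by norm_num) _)
  have hE0 : 0 < E μ (-0) := by rw [neg_zero]; exact E_pos hμ le_rfl
  have hev : ∀ᶠ t in atTop, t ^ μ * Real.exp (-(1 / (μ + 1)) * t) < d / E μ (-0) :=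
    hlim.eventually (gt_mem_nhds (by positivity))
  obtain ⟨t, ht1, ht2⟩ := (hev.and (eventually_ge_atTop (1 : ℝ))).exists
  have ht0 : 0 < t := by linarith
  have h1 := hdecay t ht0.le
  have h2 := hlow t ht2
  have he := Real.exp_pos (t / (μ + 1))
  have h3 : Real.exp (t / (μ + 1)) * (d * t ^ (-μ)) ≤ E μ (-0) :=
    (mul_le_mul_of_nonneg_left h2 he.le).trans h1
  rw [lt_div_iff₀ hE0] at ht1
  have hp := Real.rpow_pos_of_pos ht0 μ
  have h4 : Real.exp (-(1 / (μ + 1)) * t) * Real.exp (t / (μ + 1)) = 1 := by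
    rw [← Real.exp_add, show -(1 / (μ + 1)) * t + t / (μ + 1) = 0 by ring, Real.exp_zero]
  have h5 : t ^ (-μ) * t ^ μ = 1 := by rw [← Real.rpow_add ht0]; simp
  have h6 : d = (t ^ μ * Real.exp (-(1 / (μ + 1)) * t)) * (Real.exp (t / (μ + 1)) * (d * t ^ (-μ))) := by
    calc d = d * 1 * 1 := by ring
      _ = d * (Real.exp (-(1 / (μ + 1)) * t) * Real.exp (t / (μ + 1))) * (t ^ (-μ) * t ^ μ) := by rw [h4, h5]
      _ = _ := by ring
  have h7 : d ≤ t ^ μ * Real.exp (-(1 / (μ + 1)) * t) * E μ (-0) := by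
    calc d = (t ^ μ * Real.exp (-(1 / (μ + 1)) * t)) * (Real.exp (t / (μ + 1)) * (d * t ^ (-μ))) := h6
      _ ≤ _ := by
        apply mul_le_mul_of_nonneg_left h3
        have := Real.exp_pos (-(1 / (μ + 1)) * t)
        positivity
  linarith

end Q287.HC
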