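import Pool.Agent.Q287.HC.HC2

open Set Filter Topology

namespace Q287.HC

/-- a function completely monotone on `(2,∞)` that is the restriction of `C * Re G`, `G` entire,
satisfies `g 3 ≤ C * Re (G 0)` -/
lemma core (G : ℂ → ℂ) (hG : Differentiable ℂ G) (g : ℝ → ℝ) (C : ℝ)
    (hg : ∀ w : ℝ, 2 < w → g w = C * (G w).re)
    (hcm : ∀ n : ℕ, ∀ w : ℝ, 2 < w → 0 ≤ (-1 : ℝ) ^ n * iteratedDeriv n g w) :
    g 3 ≤ C * (G 0).re := by
  have hd : ∀ n : ℕ, Differentiable ℂ (iteratedDeriv n G) := by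
    intro n
    have h1 : ContDiff ℂ (⊤ : ℕ∞) G := hG.contDiff
    exact h1.differentiable_iteratedDeriv n (by exact_mod_cast WithTop.coe_lt_top n)
  have hit : ∀ n : ℕ, ∀ w : ℝ, 2 < w → iteratedDeriv n g w = C * (iteratedDeriv n G w).re := by
    intro n
    induction n with
    | zero => intro w hw; simpa using hg w hw
    | succ n ih =>
      intro w hw
      rw [iteratedDeriv_succ, iteratedDeriv_succ]
      have hev : iteratedDeriv n g =ᶠ[𝓝 w] fun x : ℝ => C * (iteratedDeriv n G x).re := by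
        filter_upwards [lt_mem_nhds hw] with x hx
        exact ih x hx
      rw [hev.deriv_eq]
      have h1 : HasDerivAt (iteratedDeriv n G) (deriv (iteratedDeriv n G) (w : ℂ)) (w : ℂ) :=
        (hd n _).hasDerivAt
      exact (h1.real_of_complex.const_mul C).deriv
  have hs := Complex.hasSum_taylorSeries_of_entire hG 3 0
  have hs2 := (Complex.hasSum_re hs).mul_left C
  have ht : ∀ n : ℕ, C * (((n.factorial : ℂ))⁻¹ • ((0 : ℂ) - 3) ^ n • iteratedDeriv n G 3).re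
      = ((n.factorial : ℝ))⁻¹ * 3 ^ n * ((-1) ^ n * iteratedDeriv n g 3) := by
    intro n
    rw [hit n 3 (by norm_num)]
    have e : (((n.factorial : ℂ))⁻¹ • ((0 : ℂ) - 3) ^ n • iteratedDeriv n G 3)
       = (((((n.factorial : ℝ))⁻¹ * (3 ^ n * (-1) ^ n)) : ℝ) : ℂ) * iteratedDeriv n G 3 := by
      rw [smul_eq_mul, smul_eq_mul]
      push_cast
      rw [show ((0 : ℂ) - 3) = 3 * (-1) by ring, mul_pow]
      ring
    rw [e, Complex.re_ofReal_mul]
    push_cast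
    ring
  have h0 : C * (((Nat.factorial 0 : ℂ))⁻¹ • ((0 : ℂ) - 3) ^ 0 • iteratedDeriv 0 G 3).re = g 3 := by
    rw [ht 0]; simp
  rw [← h0]
  refine le_hasSum hs2 0 ?_
  intro n _
  rw [ht n]
  have := hcm n 3 (by norm_num)
  positivity

/-- distance of two naturals, doubled -/
def dd (p : ℕ × ℕ) : ℕ := 2 * ((p.1 - p.2) + (p.2 - p.1))

/-- the entire function `H` with `H(v+1/v) = E(c v²) E(c v⁻²)` -/
noncomputable def H (μ c : ℝ) (w : ℂ) : ℂ :=
  ∑' p : ℕ × ℕ, ((1 / 2 * (co μ p.1 * c ^ p.1) * (co μ p.2 * c ^ p.2) : ℝ) : ℂ)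
    * (Polynomial.dickson 1 (1 : ℂ) (dd p)).eval w

lemma dickson_bound (w : ℂ) (n : ℕ) : ‖(Polynomial.dickson 1 (1 : ℂ) n).eval w‖ ≤ 2 * (‖w‖ + 1) ^ n := by
  induction n using Nat.strong_induction_on with
  | _ n ih =>
    match n with
    | 0 => simp [Polynomial.dickson_zero]; norm_num
    | 1 => simp [Polynomial.dickson_one]; linarith [norm_nonneg w]
    | (n + 2) =>
      rw [Polynomial.dickson_add_two]
      simp only [Polynomial.eval_sub, Polynomial.eval_mul, Polynomial.eval_X, Polynomial.eval_C, one_mul]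
      have h1 := ih (n + 1) (by omega)
      have h2 := ih n (by omega)
      have h0 := norm_nonneg w
      calc ‖w * (Polynomial.dickson 1 (1 : ℂ) (n + 1)).eval w - (Polynomial.dickson 1 (1 : ℂ) n).eval w‖
          ≤ ‖w * (Polynomial.dickson 1 (1 : ℂ) (n + 1)).eval w‖ + ‖(Polynomial.dickson 1 (1 : ℂ) n).eval w‖ :=
            norm_sub_le _ _
        _ ≤ ‖w‖ * (2 * (‖w‖ + 1) ^ (n + 1)) + 2 * (‖w‖ + 1) ^ n := by
            rw [norm_mul]
            gcongr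
        _ ≤ 2 * (‖w‖ + 1) ^ (n + 2) := by
            have h3 : 0 ≤ (‖w‖ + 1) ^ n := by positivity
            have : 2 * (‖w‖ + 1) ^ (n + 2) - (‖w‖ * (2 * (‖w‖ + 1) ^ (n + 1)) + 2 * (‖w‖ + 1) ^ n)
              = 2 * (‖w‖ + 1) ^ n * ‖w‖ := by ring
            nlinarith [mul_nonneg h3 h0]

lemma H_term_bound {μ c : ℝ} (hμ : -1 < μ) (hc : 0 ≤ c) (p : ℕ × ℕ) {R : ℝ} (w : ℂ) (hw : ‖w‖ ≤ R) :
    ‖((1 / 2 * (co μ p.1 * c ^ p.1) * (co μ p.2 * c ^ p.2) : ℝ) : ℂ)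
      * (Polynomial.dickson 1 (1 : ℂ) (dd p)).eval w‖ ≤
      (co μ p.1 * (c * (R + 1) ^ 2) ^ p.1) * (co μ p.2 * (c * (R + 1) ^ 2) ^ p.2) := by
  have h1 := (co_pos hμ p.1).le
  have h2 := (co_pos hμ p.2).le
  have hR : 0 ≤ R := (norm_nonneg w).trans hw
  have h3 : ‖(Polynomial.dickson 1 (1 : ℂ) (dd p)).eval w‖ ≤ 2 * ((R + 1) ^ 2) ^ (p.1 + p.2) := by
    refine (dickson_bound w (dd p)).trans ?_
    have h4 : (‖w‖ + 1) ^ dd p ≤ (R + 1) ^ dd p := by
      apply pow_le_pow_left₀ (by positivity); linarith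
    have h5 : (R + 1) ^ dd p ≤ (R + 1) ^ (2 * (p.1 + p.2)) := by
      apply pow_le_pow_right₀ (by linarith)
      unfold dd; omega
    rw [← pow_mul]
    linarith
  rw [norm_mul, Complex.norm_real, Real.norm_eq_abs, abs_of_nonneg (by positivity)]
  calc 1 / 2 * (co μ p.1 * c ^ p.1) * (co μ p.2 * c ^ p.2) * ‖(Polynomial.dickson 1 (1 : ℂ) (dd p)).eval w‖
      ≤ 1 / 2 * (co μ p.1 * c ^ p.1) * (co μ p.2 * c ^ p.2) * (2 * ((R + 1) ^ 2) ^ (p.1 + p.2)) :=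
        mul_le_mul_of_nonneg_left h3 (by positivity)
    _ = _ := by rw [mul_pow c, mul_pow c, pow_add]; ring

lemma H_bound_summable {μ c : ℝ} (hμ : -1 < μ) (hc : 0 ≤ c) (R : ℝ) :
    Summable (fun p : ℕ × ℕ => (co μ p.1 * (c * (R + 1) ^ 2) ^ p.1) * (co μ p.2 * (c * (R + 1) ^ 2) ^ p.2)) :=
  summable_mul_of_summable_norm (summ_norm hμ _) (summ_norm hμ _)

lemma H_entire {μ c : ℝ} (hμ : -1 < μ) (hc : 0 ≤ c) : Differentiable ℂ (H μ c) := by
  intro w
  have h1 : DifferentiableOn ℂ (H μ c) (Metric.ball 0 (‖w‖ + 1)) := by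
    unfold H
    refine Complex.differentiableOn_tsum_of_summable_norm (H_bound_summable hμ hc (‖w‖ + 1)) ?_ Metric.isOpen_ball ?_
    · intro p
      exact ((Polynomial.differentiable _).const_mul _).differentiableOn
    · intro p z hz
      apply H_term_bound hμ hc
      rw [mem_ball_zero_iff] at hz
      exact hz.le
  exact h1.differentiableAt (Metric.isOpen_ball.mem_nhds (by rw [mem_ball_zero_iff]; linarith))

/-- complex `E` -/
noncomputable def Ec (μ : ℝ) (z : ℂ) : ℂ := ∑' k : ℕ, (co μ k : ℂ) * z ^ k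

lemma Ec_ofReal (μ x : ℝ) : Ec μ (x : ℂ) = (E μ x : ℂ) := by
  unfold Ec E
  rw [Complex.ofReal_tsum]
  apply tsum_congr
  intro k
  push_cast
  rfl

lemma summ_norm_c {μ : ℝ} (hμ : -1 < μ) (z : ℂ) : Summable (fun k : ℕ => ‖(co μ k : ℂ) * z ^ k‖) := by
  have := summ_abs hμ (norm_nonneg z)
  refine this.congr (fun k => ?_)
  rw [norm_mul, norm_pow, Complex.norm_real, Real.norm_eq_abs, abs_of_pos (co_pos hμ k)]

lemma H_prod {μ c : ℝ} (hμ : -1 < μ) (hc : 0 ≤ c) (v u : ℂ) (huv : v * u = 1) :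
    H μ c (v + u) = Ec μ (c * v ^ 2) * Ec μ (c * u ^ 2) := by
  have s1 := summ_norm_c hμ (c * v ^ 2)
  have s2 := summ_norm_c hμ (c * u ^ 2)
  have e1 := tsum_mul_tsum_of_summable_norm s1 s2
  have e2 := tsum_mul_tsum_of_summable_norm s2 s1
  have t1 := summable_mul_of_summable_norm s1 s2
  have t2 := summable_mul_of_summable_norm s2 s1
  have e3 : Ec μ (c * v ^ 2) * Ec μ (c * u ^ 2) =
      (1 / 2 : ℂ) * ((∑' z : ℕ × ℕ, (co μ z.1 : ℂ) * (c * v ^ 2) ^ z.1 * ((co μ z.2 : ℂ) * (c * u ^ 2) ^ z.2))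
        + ∑' z : ℕ × ℕ, (co μ z.1 : ℂ) * (c * u ^ 2) ^ z.1 * ((co μ z.2 : ℂ) * (c * v ^ 2) ^ z.2)) := by
    rw [← e1, ← e2]
    unfold Ec
    ring
  rw [e3, ← Summable.tsum_add t1 t2, ← tsum_mul_left]
  unfold H
  apply tsum_congr
  rintro ⟨k, l⟩
  simp only
  rw [Polynomial.dickson_one_one_eval_add_inv v u huv]
  have key : v ^ dd (k, l) + u ^ dd (k, l) = (v ^ 2) ^ k * (u ^ 2) ^ l + (u ^ 2) ^ k * (v ^ 2) ^ l := by
    have hq : v ^ 2 * u ^ 2 = 1 := by rw [← mul_pow, huv, one_pow]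
    have hq' : ∀ m : ℕ, (v ^ 2) ^ m * (u ^ 2) ^ m = 1 := by intro m; rw [← mul_pow, hq, one_pow]
    unfold dd
    simp only
    rcases le_total k l with h | h
    · obtain ⟨m, rfl⟩ := Nat.exists_eq_add_of_le h
      have : (k - (k + m)) + ((k + m) - k) = m := by omega
      rw [this, pow_mul, pow_mul, pow_add, pow_add]
      linear_combination (-(v ^ 2) ^ m - (u ^ 2) ^ m) * hq' k
    · obtain ⟨m, rfl⟩ := Nat.exists_eq_add_of_le h
      have : ((l + m) - l) + (l - (l + m)) = m := by omega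
      rw [this, pow_mul, pow_mul, pow_add, pow_add]
      linear_combination (-(v ^ 2) ^ m - (u ^ 2) ^ m) * hq' l
  rw [key]
  push_cast
  simp only [mul_pow]
  ring

lemma H_zero {μ c : ℝ} (hμ : -1 < μ) (hc : 0 ≤ c) (h0 : E μ (-c) = 0) : H μ c 0 = 0 := by
  have h1 := H_prod hμ hc Complex.I (-Complex.I) (by rw [mul_neg, Complex.I_mul_I]; ring)
  rw [add_neg_cancel] at h1
  rw [h1]
  have h2 : (c : ℂ) * Complex.I ^ 2 = ((-c : ℝ) : ℂ) := by rw [Complex.I_sq]; push_cast; ring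
  rw [h2, Ec_ofReal, h0]
  simp

lemma H_real {μ c : ℝ} (hμ : -1 < μ) (hc : 0 ≤ c) {v : ℝ} (hv : 0 < v) :
    H μ c ((v + 1 / v : ℝ) : ℂ) = ((E μ (c * v ^ 2) * E μ (c * (1 / v) ^ 2) : ℝ) : ℂ) := by
  have h1 := H_prod hμ hc (v : ℂ) ((1 / v : ℝ) : ℂ) (by rw [← Complex.ofReal_mul]; field_simp; simp)
  rw [← Complex.ofReal_add] at h1
  rw [h1]
  push_cast [← Ec_ofReal]
  rfl

lemma exists_v {w : ℝ} (hw : 2 < w) : ∃ v : ℝ, 0 < v ∧ v + 1 / v = w := by
  have h0 : 0 ≤ w ^ 2 - 4 := by nlinarith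
  refine ⟨(w + √(w ^ 2 - 4)) / 2, ?_, ?_⟩
  · have := Real.sqrt_nonneg (w ^ 2 - 4)
    linarith
  · have h1 := Real.sqrt_nonneg (w ^ 2 - 4)
    have h2 := Real.sq_sqrt h0
    have h3 : 0 < w + √(w ^ 2 - 4) := by linarith
    field_simp
    nlinarith

end Q287.HC
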