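import Pool.Agent.Q287.HC.HC3

open Set Filter Topology

namespace Q287.HC

/-- The modified Bessel function of the first kind on `(0,∞)`,
`I_μ(x) = Σ_k (x/2)^(2k+μ) / (k! Γ(k+μ+1))`. -/
noncomputable def besselI (μ x : ℝ) : ℝ :=
  ∑' k : ℕ, (x / 2) ^ (2 * (k : ℝ) + μ) / ((k.factorial : ℝ) * Real.Gamma (k + μ + 1))

/-- `g` is completely monotone on the open half line `(2,∞)`: `C^∞` there and
`(-1)^n g^{(n)} ≥ 0` there for all `n`. -/
def IsCMOnIoiTwo (g : ℝ → ℝ) : Prop :=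
  ContDiffOn ℝ (⊤ : ℕ∞) g (Ioi 2) ∧ ∀ n : ℕ, ∀ w : ℝ, 2 < w → 0 ≤ (-1 : ℝ) ^ n * iteratedDeriv n g w

/-- `f` is hyperbolically completely monotone: for every `u > 0` the product `f(uv) f(u/v)` is, as a
function of `w = v + 1/v` (`v > 0`), completely monotone. -/
def IsHCM (f : ℝ → ℝ) : Prop :=
  ∀ u : ℝ, 0 < u → ∃ g : ℝ → ℝ, (∀ v : ℝ, 0 < v → f (u * v) * f (u / v) = g (v + 1 / v)) ∧ IsCMOnIoiTwo g

lemma besselI_eq {μ : ℝ} {x : ℝ} (hx : 0 < x) :
    besselI μ x = (x / 2) ^ μ * E μ ((x / 2) ^ 2) := by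
  unfold besselI E
  rw [← tsum_mul_left]
  apply tsum_congr
  intro k
  have h2 : 0 < x / 2 := by positivity
  have : (x / 2) ^ (2 * (k : ℝ) + μ) = (x / 2) ^ μ * ((x / 2) ^ 2) ^ k := by
    rw [add_comm, Real.rpow_add h2, ← pow_mul]
    congr 1
    rw [show (2 * (k : ℝ)) = ((2 * k : ℕ) : ℝ) by push_cast; ring, Real.rpow_natCast]
  rw [this]
  unfold co
  ring

lemma bessel_prod {μ a u v : ℝ} (ha : 0 < a) (hu : 0 < u) (hv : 0 < v) :
    besselI μ (a * (u * v)) * besselI μ (a * (u / v)) =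
      (((a * u / 2) ^ 2) ^ μ) * (E μ ((a * u / 2) ^ 2 * v ^ 2) * E μ ((a * u / 2) ^ 2 * (1 / v) ^ 2)) := by
  rw [besselI_eq (by positivity), besselI_eq (by positivity)]
  have h1 : (a * (u * v) / 2) ^ 2 = (a * u / 2) ^ 2 * v ^ 2 := by ring
  have h2 : (a * (u / v) / 2) ^ 2 = (a * u / 2) ^ 2 * (1 / v) ^ 2 := by ring
  rw [h1, h2]
  have h3 : (a * (u * v) / 2) ^ μ * (a * (u / v) / 2) ^ μ = ((a * u / 2) ^ 2) ^ μ := by
    rw [← Real.mul_rpow (by positivity) (by positivity)]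
    congr 1
    field_simp
  rw [← h3]; ring

/-- general statement: if `f(uv) f(u/v) = C e^{-β w} (h(w))^m` with `h = E(c v²)E(c/v²)`, `c` a zero of
`E_μ(-·)` and `m ≥ 1`, then this is not a completely monotone function of `w`. -/
lemma not_cm {μ c β C : ℝ} (hμ : -1 < μ) (hc : 0 ≤ c) (h0 : E μ (-c) = 0) (hC : 0 < C) (m : ℕ) (hm : m ≠ 0)
    (g : ℝ → ℝ) (hg : ∀ v : ℝ, 0 < v →
      g (v + 1 / v) = C * (Real.exp (-(β * (v + 1 / v))) * (E μ (c * v ^ 2) * E μ (c * (1 / v) ^ 2)) ^ m)) :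
    ¬ (∀ n : ℕ, ∀ w : ℝ, 2 < w → 0 ≤ (-1 : ℝ) ^ n * iteratedDeriv n g w) := by
  intro hcm
  set G : ℂ → ℂ := fun w => Complex.exp (-((β : ℂ) * w)) * (H μ c w) ^ m with hG
  have hGd : Differentiable ℂ G := by
    have h1 := H_entire hμ hc
    apply Differentiable.mul
    · exact (((differentiable_const _).mul differentiable_id).neg).cexp
    · exact h1.pow m
  have hgG : ∀ w : ℝ, 2 < w → g w = C * (G w).re := by
    intro w hw
    obtain ⟨v, hv, rfl⟩ := exists_v hw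
    rw [hg v hv]
    congr 1
    rw [hG]
    simp only
    rw [H_real hμ hc hv]
    have : Complex.exp (-((β : ℂ) * ((v + 1 / v : ℝ) : ℂ))) = ((Real.exp (-(β * (v + 1 / v))) : ℝ) : ℂ) := by
      push_cast; rfl
    rw [this, ← Complex.ofReal_pow, ← Complex.ofReal_mul, Complex.ofReal_re]
  have h1 := core G hGd g C hgG hcm
  have h2 : G 0 = 0 := by
    rw [hG]
    simp only
    rw [H_zero hμ hc h0, zero_pow hm, mul_zero]
  rw [h2] at h1
  obtain ⟨v, hv, hv3⟩ := exists_v (show (2 : ℝ) < 3 by norm_num)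
  have h3 := hg v hv
  rw [hv3] at h3
  have p1 : 0 < E μ (c * v ^ 2) := E_pos hμ (by positivity)
  have p2 : 0 < E μ (c * (1 / v) ^ 2) := E_pos hμ (by positivity)
  have p3 := Real.exp_pos (-(β * 3))
  have : 0 < g 3 := by rw [h3]; positivity
  simp at h1
  linarith

theorem phi_not_HCM (μ ν a b N : ℝ) (hμ : -1 < μ) (ha : 0 < a) (hN : 0 < N) :
    ¬ IsHCM (fun x => N * (x ^ (ν - 1) * Real.exp (-(b * x)) * besselI μ (a * x))) := by
  intro h
  obtain ⟨t, ht, ht0⟩ := exists_zero hμ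
  set u : ℝ := 2 * √t / a with hu
  have hu0 : 0 < u := by positivity
  have hc : (a * u / 2) ^ 2 = t := by
    rw [hu]
    have : a * (2 * √t / a) / 2 = √t := by field_simp
    rw [this, Real.sq_sqrt ht.le]
  obtain ⟨g, hg, _, hcm⟩ := h u hu0
  refine not_cm (β := b * u) (C := N ^ 2 * ((u ^ 2) ^ (ν - 1) * t ^ μ)) hμ ht.le ht0 (by positivity) 1 one_ne_zero g ?_ hcm
  intro v hv
  rw [← hg v hv]
  have h1 := bessel_prod (μ := μ) ha hu0 hv
  rw [hc] at h1
  have h2 : (u * v) ^ (ν - 1) * (u / v) ^ (ν - 1) = (u ^ 2) ^ (ν - 1) := by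
    rw [← Real.mul_rpow (by positivity) (by positivity)]
    congr 1
    field_simp
  have h3 : Real.exp (-(b * (u * v))) * Real.exp (-(b * (u / v))) = Real.exp (-(b * u * (v + 1 / v))) := by
    rw [← Real.exp_add]; congr 1; ring
  rw [pow_one, ← h3, ← h2]
  simp only
  calc _ = N ^ 2 * ((u * v) ^ (ν - 1) * (u / v) ^ (ν - 1)) *
      (Real.exp (-(b * (u * v))) * Real.exp (-(b * (u / v)))) *
      (besselI μ (a * (u * v)) * besselI μ (a * (u / v))) := by ring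
    _ = _ := by rw [h1]; ring

theorem xi_not_HCM (μ a b N : ℝ) (hμ : -1 < μ) (ha : 0 < a) (hN : 0 < N) :
    ¬ IsHCM (fun x => N * (x ^ (2 * μ) * Real.exp (-(b * x)) * (besselI μ (a * x)) ^ 2)) := by
  intro h
  obtain ⟨t, ht, ht0⟩ := exists_zero hμ
  set u : ℝ := 2 * √t / a with hu
  have hu0 : 0 < u := by positivity
  have hc : (a * u / 2) ^ 2 = t := by
    rw [hu]
    have : a * (2 * √t / a) / 2 = √t := by field_simp
    rw [this, Real.sq_sqrt ht.le]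
  obtain ⟨g, hg, _, hcm⟩ := h u hu0
  refine not_cm (β := b * u) (C := N ^ 2 * ((u ^ 2) ^ (2 * μ) * (t ^ μ) ^ 2)) hμ ht.le ht0 (by positivity) 2 two_ne_zero g ?_ hcm
  intro v hv
  rw [← hg v hv]
  have h1 := bessel_prod (μ := μ) ha hu0 hv
  rw [hc] at h1
  have h2 : (u * v) ^ (2 * μ) * (u / v) ^ (2 * μ) = (u ^ 2) ^ (2 * μ) := by
    rw [← Real.mul_rpow (by positivity) (by positivity)]
    congr 1
    field_simp
  have h3 : Real.exp (-(b * (u * v))) * Real.exp (-(b * (u / v))) = Real.exp (-(b * u * (v + 1 / v))) := by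
    rw [← Real.exp_add]; congr 1; ring
  rw [← h3, ← h2]
  simp only
  calc _ = N ^ 2 * ((u * v) ^ (2 * μ) * (u / v) ^ (2 * μ)) *
      (Real.exp (-(b * (u * v))) * Real.exp (-(b * (u / v)))) *
      (besselI μ (a * (u * v)) * besselI μ (a * (u / v))) ^ 2 := by ring
    _ = _ := by rw [h1]; ring

end Q287.HC
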